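import Pool.Agent.Mg.F92191bp.G695593

/-! Sizes of the fibres of maps that are not synchronized. -/

set_option linter.unusedSectionVars false

namespace Pool.Agent.MP_92191b_al.Rk

variable {ι α : Type} [Fintype ι] [DecidableEq ι] [Fintype α] [DecidableEq α]
  {f : (ι → α) → ι → α}

section

open Finset

theorem good_fib [Nontrivial α] {j : ℕ} (hj : j + 1 ≤ Fintype.card ι)
    (hall : ∀ I : Finset ι, I.card = j + 1 → ∃ B, Good f I B) (a : ι → α) :
    ∃ n, (univ.filter fun x => f x = f a).card * Fintype.card α ^ n =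
      Fintype.card α ^ Fintype.card ι := by
  classical
  obtain ⟨I, -, hI⟩ := exists_subset_card_eq (s := (univ : Finset ι)) hj
  obtain ⟨A, hA, hmax⟩ := exists_max_image
    (univ.filter fun A : Finset ι => j + 1 ≤ A.card ∧ ∃ B, Good f A B) card
    ⟨I, mem_filter.2 ⟨mem_univ _, hI.ge, hall I hI⟩⟩
  obtain ⟨hA, B, h⟩ := (mem_filter.1 hA).2
  have hstep : ∀ x i c, f (Function.update x i c) ∈ cube (f x) B := by
    intro x i c
    by_cases hi : i ∈ A
    · exact h.maps x _ (update_mem_cube x hi c)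
    by_contra hx
    obtain ⟨β, h'⟩ := h.extend hall hA hi hx
    have := hmax (insert i A) (mem_filter.2 ⟨mem_univ _,
      hA.trans (card_le_card (subset_insert _ _)), _, h'⟩)
    rw [card_insert_of_notMem hi] at this
    omega
  have hin : ∀ x y, f x ∈ cube (f y) B := fun x y =>
    cube_induction (p := fun x => f x ∈ cube (f y) B) univ (self_mem_cube _ _)
      (fun z i _ c hz => by rw [← cube_eq hz]; exact hstep z i c) x
      (mem_cube.2 fun i hi => absurd (mem_univ i) hi)
  have key : ∀ x, (univ.filter fun y => f y = f x).card * Fintype.card α ^ A.card =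
      (univ : Finset (ι → α)).card * 1 := by
    intro x
    refine card_mul_eq_card_mul (fun y z => z ∈ cube y A) (fun y _ => ?_) fun z _ => ?_
    · rw [← card_cube y A]
      congr 1
      ext z
      simp [mem_bipartiteAbove]
    · have h1 := hin x z
      rw [← h.image] at h1
      obtain ⟨y, hy, hy'⟩ := mem_image.1 h1
      refine card_eq_one.2 ⟨y, ?_⟩
      ext u
      simp only [mem_bipartiteBelow, mem_filter, mem_univ, true_and, mem_singleton]
      exact ⟨fun hu => h.injOn z (mem_cube_symm hu.2) hy (hu.1.trans hy'.symm),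
        fun hu => hu ▸ ⟨hy', mem_cube_symm hy⟩⟩
  exact ⟨A.card, by rw [key a, mul_one, card_univ, Fintype.card_fun]⟩

theorem large_fib [Nontrivial α] {j : ℕ} (hk : Ekr ι α j)
    (hf : ∀ x y, j + 1 < hammingDist x y → j + 1 < hammingDist (f x) (f y))
    {E : Finset ι} (hE : E.card = j + 1 + 1) (z : ι → α) {a : ι → α}
    (ha : a ∈ pre f z E) :
    ∃ n, (univ.filter fun x => f x = f a).card = Fintype.card α ^ n := by
  have hsl : ∀ i ∈ E, ∀ c, IsCube ((pre f z E).filter fun y => f y i = c) (j + 1) := by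
    intro i hi c
    rw [pre_slice f z hi]
    exact pre_isCube hk hf (by rw [card_erase_of_mem hi, hE]; rfl) _
  obtain ⟨i0, hi0⟩ : E.Nonempty := card_pos.1 (by omega)
  have hfib : ∀ y ∈ pre f z E, ∀ x, f x = f y ↔ x ∈ pre f z E ∧ ∀ i ∈ E, f x i = f y i := by
    intro y hy x
    constructor
    · intro h
      exact ⟨mem_pre.2 fun i hi => h ▸ mem_pre.1 hy i hi, fun i _ => by rw [h]⟩
    · rintro ⟨hx, h⟩
      funext i
      by_cases hi : i ∈ E
      · exact h i hi
      · rw [mem_pre.1 hx i hi, mem_pre.1 hy i hi]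
  by_cases htied : ∀ i ∈ E, ∀ y0 ∈ pre f z E, ∀ y1 ∈ pre f z E, f y1 i0 = f y0 i0 → f y0 i = f y1 i
  · have key : ∀ y ∈ pre f z E,
        (univ.filter fun x => f x = f y).card = Fintype.card α ^ (j + 1) := by
      intro y hy
      rw [← (hsl i0 hi0 (f y i0)).card]
      congr 1
      ext x
      simp only [mem_filter, mem_univ, true_and, hfib y hy]
      exact and_congr_right fun hx =>
        ⟨fun h => h i0 hi0, fun h i hi => (htied i hi y hy x hx h).symm⟩
    exact ⟨_, key a ha⟩
  push Not at htied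
  obtain ⟨i1, hi1, y0, h0, y1, h1, h, h'⟩ := htied
  have hent := entries_of_untied (hsl i0 hi0) (hsl i1 hi1) h0 h1 h h'
  have hunt : ∀ i ∈ E, ∃ i' ∈ E, ∃ u ∈ pre f z E, ∃ v ∈ pre f z E,
      f v i = f u i ∧ f u i' ≠ f v i' := by
    intro i hi
    by_contra! hcon
    have h2 : ((pre f z E).filter fun y => f y i = f a i) ⊆
        ((pre f z E).filter fun y => f y i1 = f a i1).filter fun y => f y i0 = f a i0 :=
      fun y hy => mem_filter.2 ⟨mem_filter.2 ⟨(mem_filter.1 hy).1,
        (hcon i1 hi1 a ha y (mem_filter.1 hy).1 (mem_filter.1 hy).2).symm⟩,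
        (hcon i0 hi0 a ha y (mem_filter.1 hy).1 (mem_filter.1 hy).2).symm⟩
    have h3 := card_le_card h2
    rw [hent, (hsl i hi _).card] at h3
    exact absurd ((Nat.pow_le_pow_iff_right one_lt_k).1 h3) (by omega)
  have hsl' := hsl
  choose! A hA hA0 hA' using hsl
  have hpar : ∀ i ∈ E, ∀ c, A i c = A i (f a i) := by
    intro i hi c
    obtain ⟨i', hi', u, hu, v, hv, h2, h3⟩ := hunt i hi
    have h4 : ∀ i ∈ E, ∀ x ∈ pre f z E, ∀ y,
        y ∈ cube x (A i (f x i)) ↔ y ∈ pre f z E ∧ f y i = f x i := fun i hi x hx y => by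
      rw [← hA' i hi _ x (mem_filter.2 ⟨hx, rfl⟩), mem_filter]
    exact dirs_eq (hA i hi) (hA i' hi') (h4 i hi) (h4 i' hi')
      (entries_of_untied (hsl' i hi) (hsl' i' hi') hu hv h2 h3) _ _
  have key : ∀ y ∈ pre f z E, (univ.filter fun x => f x = f y) =
      cube y (univ.filter fun l => ∀ i ∈ E, l ∈ A i (f a i)) := by
    intro y hy
    have h2 : ∀ i ∈ E, ∀ x, x ∈ pre f z E ∧ f x i = f y i ↔ x ∈ cube y (A i (f a i)) := by
      intro i hi x
      rw [← hpar i hi (f y i), ← hA' i hi _ y (mem_filter.2 ⟨hy, rfl⟩), mem_filter]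
    ext x
    simp only [mem_filter, mem_univ, true_and, hfib y hy, mem_cube, not_forall]
    constructor
    · rintro ⟨hx, h⟩ l ⟨i, hi, hl⟩
      exact mem_cube.1 ((h2 i hi x).1 ⟨hx, h i hi⟩) l hl
    · intro h
      have h3 : ∀ i ∈ E, x ∈ pre f z E ∧ f x i = f y i := fun i hi =>
        (h2 i hi x).2 (mem_cube.2 fun l hl => h l ⟨i, hi, hl⟩)
      exact ⟨(h3 i0 hi0).1, fun i hi => (h3 i hi).2⟩
  exact ⟨_, by rw [key a ha, card_cube]⟩

end

open Finset Function Equiv K6 X

open B2 in
theorem b2_fib {J N e : ℕ} {E : Finset ι} (hT : StmtTy ι α) (hTy : Ty ι α J N e)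
    (hf : ∀ x y, x ≠ y → hammingDist x y ≤ J → f x ≠ f y ∧ hammingDist (f x) (f y) ≤ J)
    (hE : 2 * e + E.card = J)
    (h : ∀ ζ x, dev ζ E x ≤ e + 1 → f x ∈ (AK ζ E e).image f)  (a : ι → α) :
    (univ.filter fun x => f x = f a).card * N = Fintype.card α ^ Fintype.card ι := by
  have h1 : ∀ ζ i a, (AK (update ζ i a) E e).image f = (AK ζ E e).image f := by
    intro ζ i a
    refine eq_of_subset_of_card_le (fun y hy => ?_)
      (by rw [card_image hT hTy hf hE, card_image hT hTy hf hE])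
    obtain ⟨x, hx, rfl⟩ := mem_image.1 hy
    exact h ζ x ((dev_update ζ x E i a).trans (Nat.succ_le_succ (mem_AK.1 hx)))
  have h2 : ∀ a, (univ.filter fun x => f x = f a).card * N = (univ : Finset (ι → α)).card * 1 := by
    intro a
    refine card_mul_eq_card_mul (fun x ζ => dev x E ζ ≤ e) (fun x _ => hTy.2.2 x E hE)
      fun ζ _ => ?_
    have h3 : f a ∈ (AK ζ E e).image f := by
      rw [const_of_update (fun ζ => (AK ζ E e).image f) h1 a ζ]
      exact mem_image_of_mem f (self_mem a E e)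
    obtain ⟨x, hx, hx'⟩ := mem_image.1 h3
    refine card_eq_one.2 ⟨x, eq_singleton_iff_unique_mem.2 ⟨?_, fun y hy => ?_⟩⟩
    · exact mem_filter.2 ⟨mem_filter.2 ⟨mem_univ _, hx'⟩, (dev_comm x ζ E).trans_le (mem_AK.1 hx)⟩
    · obtain ⟨k1, k2⟩ := mem_filter.1 hy
      exact injOn hT hf hE (mem_coe.2 (mem_AK.2 ((dev_comm ζ y E).trans_le k2))) (mem_coe.2 hx)
        ((mem_filter.1 k1).2.trans hx'.symm)
  rw [h2 a, mul_one, card_univ, Fintype.card_fun]

theorem b2R (hk : 3 ≤ Fintype.card α) {J N e : ℕ} (hM : MaxA ι α J N) (hTy : Ty ι α J N e)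
    (he : 1 ≤ e)
    (hf : ∀ x y, x ≠ y → hammingDist x y ≤ J → f x ≠ f y ∧ hammingDist (f x) (f y) ≤ J) :
    (∀ a, (univ.filter fun x => f x = f a).card * N = Fintype.card α ^ Fintype.card ι) ∨
      ∀ x y, hammingDist x y = J + 1 → hammingDist (f x) (f y) = J + 1 := by
  have hT : StmtTy ι α := K6.ty K6.sph
  have hF : StmtFar ι α := K6.far K6.sph
  have hC : StmtConn ι α := K6.conn
  have hJ : J + 1 ≤ Fintype.card ι := by
    have h1 := hTy.2.1
    have h2 : 2 * e ≤ Fintype.card α * e := Nat.mul_le_mul_right _ (by omega)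
    omega
  by_cases hp : ∃ x y, hammingDist x y = J + 1 ∧ hammingDist (f x) (f y) = J + 1
  · obtain ⟨x, y, h1, h2⟩ := hp
    refine Or.inr fun x' y' h => hC hk J e (fun x y => hammingDist (f x) (f y) = J + 1) he hTy.1 hJ
      (fun x y h => by rwa [hammingDist_comm]) ?_ x y x' y' h1 h h2
    intro ζ E x hE hx a ha a' ha' _ hd' k
    refine B2.key hT hF hk hM hTy he hf hE hx (fun hn => ?_) ha' hd'
    have := B2.diam_image hT hf hE _ hn _ (mem_image_of_mem f ha)
    omega
  · obtain ⟨E, -, hE⟩ := exists_subset_card_eq (s := (univ : Finset ι)) (n := J - 2 * e)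
      (by rw [card_univ]; omega)
    have hE' : 2 * e + E.card = J := by have := hTy.1; omega
    refine Or.inl (b2_fib hT hTy hf hE' fun ζ x hx => ?_)
    rcases hx.eq_or_lt with hx | hx
    · by_contra hn
      obtain ⟨h1, h2⟩ := ((hF hk).1 J e ζ E x (by omega) hE' hTy.2.1).1 hx
      have h3 : 0 < nu (Fintype.card ι) (Fintype.card α) J e :=
        Nat.mul_pos (Nat.choose_pos (by omega)) (Nat.pow_pos (by omega))
      obtain ⟨a, ha⟩ := card_pos.1 (h2 ▸ h3)
      obtain ⟨h4, h5⟩ := mem_filter.1 ha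
      have h6 : hammingDist x a = J + 1 := le_antisymm (h1 a h4) h5
      exact hp ⟨x, a, h6, B2.key hT hF hk hM hTy he hf hE' hx hn h4 h6⟩
    · exact mem_image_of_mem f (B2.mem_AK.2 (Nat.le_of_lt_succ hx))

theorem b1R (hk : 3 ≤ Fintype.card α) {J N e : ℕ} (hM : MaxA ι α J N) (hP : Pre f J N)
    (hTy : Ty ι α J N e) (he : 1 ≤ e) :
    Surjective f ∨ ∀ a, (univ.filter fun x => f x = f a).card = N := by
  have hT := K6.tri K6.sepB hk J N e f hP hTy he
  have hC := K6.count (K6.ty K6.sph) hk J N e f hM hP hTy he hT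
  by_cases h : ∃ x, ∀ i, ∃ l, Lin f x i l
  · obtain ⟨x, hx⟩ := h
    have hall : ∀ y i, ∃ l, Lin f y i l := fun y =>
      B1.walk (fun z => ∀ i, ∃ l, Lin f z i l) x y (fun z i hz =>
        (hC _).resolve_right fun hn => (hz i).elim fun l hl => hn i l (B1.lin_update hl _)) hx
    have hle : ∀ u v : ι → α, (univ.filter fun x => f x = u).card ≤
        (univ.filter fun x => f x = v).card := fun u v =>
      B1.walk (fun w => (univ.filter fun x => f x = u).card ≤ (univ.filter fun x => f x = w).card)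
        u v (fun w l hw => hw.trans (B1.fib_le hT hall w l _)) le_rfl
    refine Or.inl fun v => ?_
    have h0 : 0 < (univ.filter fun y => f y = f x).card :=
      card_pos.2 ⟨x, mem_filter.2 ⟨mem_univ _, rfl⟩⟩
    obtain ⟨y, hy⟩ := card_pos.1 (h0.trans_le (hle (f x) v))
    exact ⟨y, (mem_filter.1 hy).2⟩
  · have hn : ∀ x i l, ¬Lin f x i l := fun x => (hC x).resolve_left fun hx => h ⟨x, hx⟩
    exact Or.inr fun a => B1.fib_eq hP hTy hT hn a

/-- The map is a colouring or collapses no non-adjacent pair. -/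
def PC (S : Set ℕ) (f : (ι → α) → ι → α) : Prop :=
  (∀ x y, ¬Kept S f x y) ∨ ∀ x y, x ≠ y → hammingDist x y ∉ S → f x ≠ f y

open E7 in
theorem e7R (hM : StmtMove (Fin 6) (Fin 4)) (hR : StmtRob (Fin 6) (Fin 4)) (hH : StmtHex)
    (hX : StmtHexOut) (f : (Fin 6 → Fin 4) → Fin 6 → Fin 4) (hf : Hom {4, 6} f) :
    PC {4, 6} f := by
  obtain ⟨H, hc, hcl, h4, h6, v, hv, -⟩ := hH
  have tp : TP {4, 6} H (cube 0 {0, 1, 2}) := by
    refine ⟨by simp, hcl, fun y hy z hz _ k => ?_, by rw [hc, card_cube]; decide⟩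
    have k1 : hammingDist y z ≤ 3 := dist_le_of_mem_cube hy hz
    rcases k with k | k
    · omega
    · rw [Set.mem_singleton_iff] at k
      omega
  obtain ⟨-, -, -, -, r5, -, -⟩ := hR _ _ _ f ⟨0⟩ tp hf
  have bd : Bound (Fin 6) (Fin 4) {4, 6} H.card 32 := fun C h1 h2 u hu T hT hT' => by
    have k1 := card_le_card (fun c hc => mem_filter.2 ⟨hT hc, hT' c hc⟩ :
      T ⊆ C.filter fun c => hammingDist u c = 4 ∨ hammingDist u c = 6)
    have k2 := hX C (h2.trans hc) h1 u hu
    rw [cardN] at k1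
    omega
  replace r5 := r5 32 bd
  have nb : ∀ x y, hammingDist x y = 4 ∨ hammingDist x y = 6 → ¬Kept {4, 6} f x y :=
    fun x y h k => k.2 (hf x y h)
  have out : ∀ C : Finset (Fin 6 → Fin 4), Cl {4, 6} C → ∀ u, ∀ c ∈ C, 0 < hammingDist u c →
      hammingDist u c < 4 → u ∉ C := fun C hC u c hc h1 h2 hu => by
    have k : hammingDist u c = 4 ∨ hammingDist u c = 6 := hC u hu c hc (hammingDist_pos.1 h1)
    omega
  have link : ∀ u c0 c, hammingDist u c0 = 1 → hammingDist c0 c = hammingDist u c + 1 →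
      hammingDist u c = 3 ∨ hammingDist u c = 5 →
      (Kept {4, 6} f u c0 ↔ Kept {4, 6} f u c) := fun u c0 c h1 h2 h3 => by
    obtain ⟨C, k1, k2, k3, k4⟩ := img hM hcl (x := c0) (y := c)
      (by rcases h3 with h3 | h3 <;> rw [h2, h3] <;> assumption)
    have k5 := hX C (k1.trans hc) k2 u (out C k2 u c0 k3 (by omega) (by omega))
    have k6 := nd_pos (u := u) k3
    have k7 := cardN C u
    rw [h1] at k6
    have key : ∀ x ∈ C, ¬(hammingDist u x = 4 ∨ hammingDist u x = 6) → ¬Kept {4, 6} f u x →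
        ∀ y ∈ C, ¬Kept {4, 6} f u y := fun x hx hx' hk => by
      refine r5 C k2 k1 u (insert x (C.filter fun c => hammingDist u c = 4 ∨ hammingDist u c = 6))
        (insert_subset hx (filter_subset _ _)) ?_ fun y hy => ?_
      · rw [card_insert_of_notMem (by rw [mem_filter]; exact fun h => hx' h.2)]
        omega
      · rcases mem_insert.1 hy with rfl | hy
        · exact hk
        · exact nb _ _ (mem_filter.1 hy).2
    exact ⟨fun h => by_contra fun h' => key c k4 (by omega) h' c0 k3 h,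
      fun h => by_contra fun h' => key c0 k3 (by omega) h' c k4 h⟩
  have sA : ∀ u c0 c1, hammingDist u c0 = 1 → hammingDist u c1 = 1 → Kept {4, 6} f u c0 →
      Kept {4, 6} f u c1 := fun u c0 c1 h0 h1 h => by
    obtain ⟨i, a1, a2⟩ := one h0
    obtain ⟨i', b1, b2⟩ := one h1
    obtain ⟨c, e1, e2, e3⟩ := third u i i'
    exact (link u c1 c h1 (step b1 b2 e3) (Or.inl e1)).2
      ((link u c0 c h0 (step a1 a2 e2) (Or.inl e1)).1 h)
  have sC : ∀ u c, hammingDist u c = 3 ∨ hammingDist u c = 5 →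
      ∃ c0, hammingDist u c0 = 1 ∧ (Kept {4, 6} f u c0 ↔ Kept {4, 6} f u c) := fun u c h => by
    obtain ⟨i, hi⟩ : ∃ i, c i = u i := by
      by_contra! k
      have : hammingDist u c = 6 := by
        unfold hammingDist
        rw [filter_true_of_mem fun l _ => (k l).symm]
        rfl
      omega
    obtain ⟨a, ha⟩ := exists_ne (u i)
    exact ⟨_, dist_upd u i ha, link u _ c (dist_upd u i ha)
      (step (by simpa using ha.symm) (fun l hl => (update_of_ne hl _ _).symm) hi) h⟩
  have two : ∀ u c : Fin 6 → Fin 4, hammingDist u c = 2 → ∃ C : Finset (Fin 6 → Fin 4),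
      C.card = H.card ∧ Cl {4, 6} C ∧ c ∈ C ∧ u ∉ C ∧ nd C u 2 = 3 ∧ nd C u 3 = 8 :=
    fun u c h => by
    obtain ⟨C, k1, k2, k3, -⟩ := img hM hcl (x := c) (y := c) ⟨v, hv, v, hv, by simp⟩
    have k4 := out C k2 u c k3 (by omega) (by omega)
    have k5 := hX C (k1.trans hc) k2 u k4
    have k6 := nd_pos (u := u) k3
    rw [h] at k6
    exact ⟨C, k1, k2, k3, k4, by omega, by omega⟩
  by_cases h : ∃ u c, hammingDist u c = 1 ∧ Kept {4, 6} f u c
  · obtain ⟨u0, c0, h0, h1⟩ := h
    have a1 : ∀ u c, hammingDist u c = 1 → Kept {4, 6} f u c := fun u =>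
      B1.walk (fun u => ∀ c, hammingDist u c = 1 → Kept {4, 6} f u c) u0 u
        (fun z i hz => by
          by_cases k : u i = z i
          · rwa [k, update_eq_self]
          · exact fun c hc => sA _ z c (by rw [hammingDist_comm]; exact dist_upd z i k) hc
              (symm (hz _ (dist_upd z i k))))
        fun c hc => sA u0 c0 c h0 hc h1
    have a3 : ∀ u c, hammingDist u c = 3 ∨ hammingDist u c = 5 → Kept {4, 6} f u c :=
      fun u c h => by
      obtain ⟨c0, k1, k2⟩ := sC u c h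
      exact k2.1 (a1 u c0 k1)
    refine Or.inr fun x y hxy hS e => ?_
    have k0 := hammingDist_pos.2 hxy
    have k6 := le_six x y
    have kS : ¬(hammingDist x y = 4 ∨ hammingDist x y = 6) := hS
    by_cases k2 : hammingDist x y = 2
    · obtain ⟨C, -, m2, m3, -, -, m6⟩ := two x y k2
      obtain ⟨c, hc'⟩ := card_pos.1 (show 0 < nd C x 3 by omega)
      obtain ⟨n1, n2⟩ := mem_filter.1 hc'
      refine (a3 x c (Or.inl n2)).2 ?_
      rw [e]
      refine hf _ _ (m2 y m3 c n1 fun k => ?_)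
      rw [← k] at n2
      omega
    · by_cases k1 : hammingDist x y = 1
      · exact (a1 x y k1).1 e
      · exact (a3 x y (by omega)).1 e
  · have a : ∀ x y, hammingDist x y ≠ 2 → ¬Kept {4, 6} f x y := fun x y k2 k => by
      have k0 := hammingDist_pos.2 fun e : x = y => k.1 (by rw [e])
      have k6 := le_six x y
      by_cases k1 : hammingDist x y = 1
      · exact h ⟨x, y, k1, k⟩
      by_cases k3 : hammingDist x y = 3 ∨ hammingDist x y = 5
      · obtain ⟨c0, m1, m2⟩ := sC x y k3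
        exact h ⟨x, c0, m1, m2.2 k⟩
      · exact nb x y (by omega) k
    refine Or.inl fun x y => ?_
    by_cases k2 : hammingDist x y = 2
    · obtain ⟨C, m1, m2, m3, -, m5, -⟩ := two x y k2
      refine r5 C m2 m1 x (C.filter fun c => ¬hammingDist x c = 2) (filter_subset _ _) ?_
        (fun c hc' => a x c (mem_filter.1 hc').2) y m3
      have k := card_filter_add_card_filter_not (s := C) fun c => hammingDist x c = 2
      unfold nd at m5
      omega
    · exact a x y k2

theorem e8R (hO : StmtOut (Fin 6) (Fin 4)) (hR : StmtRob (Fin 6) (Fin 4)) (hH : StmtHex)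
    (f : (Fin 6 → Fin 4) → Fin 6 → Fin 4) (hf : Hom E8.SS f) : PC E8.SS f := by
  obtain ⟨K, D, hK, hT⟩ := E8.tp hH
  obtain ⟨-, -, -, -, r5, -, -⟩ := hR E8.SS K D f ⟨0⟩ hT hf
  rw [hK] at r5
  have h5 : E8.Spr f := r5 37 (E8.bound hO hH)
  by_cases hex : ∃ x y, hammingDist x y = 4 ∧ ¬Kept E8.SS f x y
  · obtain ⟨x, y, h, hn⟩ := hex
    have h4 : ∀ x' y', hammingDist x' y' = 4 → ¬Kept E8.SS f x' y' :=
      fun x' y' h' => E8.four hO hH hf h5 x y x' y' h h' hn
    refine Or.inl fun x' y' => ?_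
    by_cases e0 : x' = y'
    · exact fun hk => hk.1 (by rw [e0])
    by_cases e4 : hammingDist x' y' = 4
    · exact h4 x' y' e4
    by_cases e6 : hammingDist x' y' = 6
    · exact E8.six_not hf h5 h4 x' y' e6
    refine E8.nk_of hf ?_
    have h1 := E8.dist_le x' y'
    have h2 : 0 < hammingDist x' y' := hammingDist_pos.2 e0
    rw [E8.mem_SS]
    omega
  · push Not at hex
    refine Or.inr fun x y hne hs => ?_
    by_cases e4 : hammingDist x y = 4
    · exact (hex x y e4).1
    refine E8.six_kept hO hH hf hex x y ?_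
    have h1 := E8.dist_le x y
    have h2 : 0 < hammingDist x y := hammingDist_pos.2 hne
    rw [E8.mem_SS] at hs
    omega

end Pool.Agent.MP_92191b_al.Rk
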