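import Pool.Agent.MP_92191b_al.Rk.Fib

/-! Ranks of the maps that are not synchronized. -/

set_option linter.unusedSectionVars false

namespace Pool.Agent.MP_92191b_al.Rk

open Finset Function Equiv K6 X

variable {ι α : Type} [Fintype ι] [DecidableEq ι] [Fintype α] [DecidableEq α]

/-- The rank is a power of the number of letters or comes from a code that meets the bound given
by a product of a ball and a cube. -/
def RkP (f : (ι → α) → ι → α) : Prop :=
  (∃ i, (univ.image f).card = Fintype.card α ^ i) ∨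
  ∃ (e : ℕ) (E : Finset ι) (ζ : ι → α) (C : Finset (ι → α)), 1 ≤ e ∧ 2 ≤ C.card ∧
    (∀ x ∈ C, ∀ y ∈ C, x ≠ y → 2 * e + E.card < hammingDist x y) ∧
    C.card * (AK ζ E e).card = Fintype.card α ^ Fintype.card ι ∧
    ((univ.image f).card = C.card ∨
      (univ.image f).card * C.card = Fintype.card α ^ Fintype.card ι)

theorem rank_mul {f : (ι → α) → ι → α} (hU : Unif f) (a : ι → α) :
    (univ.image f).card * (univ.filter fun x => f x = f a).card =
      Fintype.card α ^ Fintype.card ι := by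
  rw [← Fintype.card_fun, ← card_univ, card_eq_sum_card_image f univ, ← smul_eq_mul, ← sum_const]
  refine sum_congr rfl fun y hy => ?_
  obtain ⟨b, -, rfl⟩ := mem_image.1 hy
  exact hU a b

theorem pow_of_mul {k r n m : ℕ} (hk : 2 ≤ k) (h : r * k ^ n = k ^ m) : ∃ i, r = k ^ i := by
  have h1 : n ≤ m := (Nat.pow_dvd_pow_iff_le_right hk).1 ⟨r, by rw [← h, mul_comm]⟩
  obtain ⟨i, rfl⟩ := Nat.exists_eq_add_of_le h1
  rw [pow_add, mul_comm] at h
  exact ⟨i, Nat.eq_of_mul_eq_mul_left (by positivity) h⟩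

theorem rk_inj {f : (ι → α) → ι → α} (h : Injective f) : RkP f :=
  Or.inl ⟨_, by rw [card_image_of_injective _ h, card_univ, Fintype.card_fun]⟩

theorem rk_code [Nonempty α] {f : (ι → α) → ι → α} {J N e : ℕ} {C : Finset (ι → α)}
    (hTy : Ty ι α J N e) (he : 1 ≤ e) (h2 : 2 ≤ C.card)
    (hd : ∀ x ∈ C, ∀ y ∈ C, x ≠ y → J < hammingDist x y)
    (hN : C.card * N = Fintype.card α ^ Fintype.card ι)
    (hr : (univ.image f).card = C.card ∨
      (univ.image f).card * C.card = Fintype.card α ^ Fintype.card ι) : RkP f := by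
  obtain ⟨E, -, hE⟩ := exists_subset_card_eq (s := (univ : Finset ι)) (n := J - 2 * e) (by
    have h1 := hTy.2.1
    rw [card_univ]
    omega)
  have hJ : 2 * e + E.card = J := by
    have := hTy.1
    omega
  obtain ⟨ζ⟩ : Nonempty (ι → α) := inferInstance
  exact Or.inr ⟨e, E, ζ, C, he, h2, hJ ▸ hd, by rw [hTy.2.2 ζ E hJ, hN], hr⟩

open K6.Glue (sep_of dist_wreath) in
open GlueX in
theorem glueR (hk : 3 ≤ Fintype.card α) (Ex : Finset (ι → α) → Finset (ι → α) → Prop)
    (hA : StmtAX ι α Ex) (f : Function.End (ι → α)) (hH : Harmless Ex f)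
    (hX : ∀ C D, Ex C D → ∀ S : Set ℕ, 0 ∉ S → Hom S f →
      (1 ∉ S ∧ Cl S C ∧ Cl Sᶜ D) ∨ (1 ∈ S ∧ Cl Sᶜ C ∧ Cl S D) → RkP f)
    (hM : ∀ c ∈ Submonoid.closure ({g : Function.End (ι → α) |
      ∃ (σ : ι → Perm α) (π : Perm ι), g = fun x i => σ i (x (π i))} ∪ {f}),
      ¬∃ y, ∀ x, c x = y) : RkP f := by
  have hU : Unif f := glueX hk Ex hA f hH hM
  have hC : StmtCnt ι α := K6.cnt
  have hT : StmtTy ι α := K6.ty K6.sph
  have hP : StmtPre ι α := K6.pre K6.cnt (K6.ty K6.sph)
  classical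
  have : Nontrivial α := Fintype.one_lt_card_iff_nontrivial.1 (by omega)
  obtain ⟨a0⟩ : Nonempty (ι → α) := inferInstance
  set M := Submonoid.closure ({g : Function.End (ι → α) |
      ∃ (σ : ι → Perm α) (π : Perm ι), g = fun x i => σ i (x (π i))} ∪ {f}) with hMdef
  have hG : ∀ (σ : ι → Perm α) (π : Perm ι),
      (fun x i => σ i (x (π i)) : Function.End (ι → α)) ∈ M :=
    fun σ π => Submonoid.subset_closure (Or.inl ⟨σ, π, rfl⟩)
  have hf : f ∈ M := Submonoid.subset_closure (Or.inr rfl)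
  let S : Set ℕ := {d | ∀ x y : ι → α, hammingDist x y = d → ∀ c ∈ M, c x ≠ c y}
  have hS : ∀ x y : ι → α, hammingDist x y ∈ S ↔ ∀ c ∈ M, c x ≠ c y := by
    refine fun x y => ⟨fun h => h x y rfl, fun h x' y' h' c hc hne => ?_⟩
    obtain ⟨σ, π, h1, h2⟩ := exists_wreath h'
    refine h _ (M.mul_mem hc (hG σ π)) ?_
    change c (fun i => σ i (x (π i))) = c fun i => σ i (y (π i))
    rw [h1, h2, hne]
  have hend : ∀ c ∈ M, ∀ x y, hammingDist x y ∈ S → c x ≠ c y ∧ hammingDist (c x) (c y) ∈ S :=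
    fun g hg x y h => ⟨(hS x y).1 h g hg, (hS _ _).2 fun c hc => (hS x y).1 h _ (M.mul_mem hc hg)⟩
  have hge : ∀ x y : ι → α, x ≠ y → 1 ≤ hammingDist x y := fun _ _ h => hammingDist_pos.2 h
  have hex : ∃ n, ∃ c ∈ M, (univ.image c).card = n := ⟨_, 1, M.one_mem, rfl⟩
  obtain ⟨h, hh, hcard⟩ := Nat.find_spec hex
  have hmin : ∀ c ∈ M, (univ.image h).card ≤ (univ.image c).card := fun c hc =>
    hcard ▸ Nat.find_min' hex ⟨c, hc, rfl⟩
  have hK : ∀ y ∈ univ.image h, ∀ z ∈ univ.image h, y ≠ z → hammingDist y z ∈ S := by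
    intro y hy z hz hyz
    refine (hS y z).2 fun c hc he => ?_
    have h1 : (univ.image (c * h)).card < (univ.image h).card := by
      have : univ.image (c * h) = (univ.image h).image c := by
        rw [image_image]
        rfl
      rw [this]
      exact lt_of_le_of_ne card_image_le fun h' => hyz (card_image_iff.1 h' hy hz he)
    exact absurd (hmin _ (M.mul_mem hc hh)) (not_le.2 h1)
  have hfib : ∀ c ∈ M, ∀ w, ∀ y ∈ univ.filter fun x => c x = w,
      ∀ z ∈ univ.filter fun x => c x = w, y ≠ z → hammingDist y z ∉ S := fun c hc w y hy z hz _ h' =>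
    (hS y z).1 h' c hc ((mem_filter.1 hy).2.trans (mem_filter.1 hz).2.symm)
  obtain ⟨w, -, hw⟩ := exists_max_image univ (fun w => (univ.filter fun x => h x = w).card)
    ⟨a0, mem_univ _⟩
  have hC0 := hfib h hh w
  have hKC : Fintype.card α ^ Fintype.card ι ≤
      (univ.image h).card * (univ.filter fun x => h x = w).card := by
    rw [← Fintype.card_fun, ← card_univ, mul_comm]
    exact card_le_mul_card_image _ _ fun v _ => hw v (mem_univ _)
  have hKC' := le_antisymm (hC.2.1 _ _ (sep_of hK hC0)) hKC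
  set K := univ.image h with hKdef
  set C0 := univ.filter fun x => h x = w with hC0def
  have h0S : 0 ∉ S := fun h' => h' a0 a0 (hammingDist_self a0) 1 M.one_mem rfl
  have hHom : Hom S f := fun x y hxy => (hend f hf x y hxy).2
  by_cases h1 : 1 ∈ S
  · by_cases h2 : 2 ≤ C0.card
    swap
    · have h3 : Fintype.card (ι → α) ≤ (univ.image f).card := by
        rw [Fintype.card_fun]
        refine hKC.trans (le_trans ?_ (hmin f hf))
        calc K.card * C0.card ≤ K.card * 1 := Nat.mul_le_mul_left _ (by omega)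
          _ = K.card := mul_one _
      have h4 : Injective f := fun x y hxy =>
        card_image_iff.1 (le_antisymm card_image_le (by rwa [card_univ])) (mem_univ x)
          (mem_univ y) hxy
      exact rk_inj h4
    have h1' : 1 ∉ Sᶜ := fun h' => h' h1
    by_cases hx : ∃ K' : Finset (ι → α), Cl S K' ∧ K'.card = K.card ∧ Ex C0 K'
    · obtain ⟨K', h3, h4, h5⟩ := hx
      exact hX C0 K' h5 S h0S hHom (Or.inr ⟨h1, hC0, h3⟩)
    have key : ∀ K' : Finset (ι → α), (∀ y ∈ K', ∀ z ∈ K', y ≠ z → hammingDist y z ∈ S) →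
        K'.card = K.card → ∃ ζ E e, K' = AK ζ E e ∧
          E.card + Fintype.card α * e + 1 ≤ Fintype.card ι ∧ 2 * e + E.card + 1 ∉ S ∧
          ∀ s, 1 ≤ s → s ≤ 2 * e + E.card → s ∈ S := by
      intro K' h3 h4
      obtain ⟨ζ, E, e, h5, h6, h7, h8⟩ := conc hA hT hk (S := Sᶜ) h1' hC0
        (fun y hy z hz hne h' => h' (h3 y hy z hz hne)) h2 (by rw [h4, mul_comm]; exact hKC)
        (fun h' => hx ⟨K', h3, h4, h'⟩)
      exact ⟨ζ, E, e, h5, h6, h7, fun s hs hs' => not_not.1 (h8 s hs hs')⟩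
    obtain ⟨ζ, E, e, hKe, hr, hJ1, hlow⟩ := key K hK rfl
    obtain ⟨j, hj⟩ : ∃ j, 2 * e + E.card = j + 1 :=
      Nat.exists_eq_succ_of_ne_zero fun h0 => hJ1 (by rw [h0]; exact h1)
    have hKd : Diam K (j + 1) := by rw [hKe, ← hj]; exact hT.2.1 ζ E e
    rw [hj] at hJ1 hlow
    have hMax : MaxA ι α (j + 1) K.card := maxA hH hC hA hT hk (by omega)
      (fun y hy z hz hne => not_le.1 fun h' => hC0 y hy z hz hne (hlow _ (hge y z hne) h')) h2
      (by rw [mul_comm]; exact hKC')
    have hf' : ∀ x y, x ≠ y → hammingDist x y ≤ j + 1 →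
        f x ≠ f y ∧ hammingDist (f x) (f y) ≤ j + 1 := by
      intro x y hne hd
      refine ⟨(hend f hf x y (hlow _ (hge x y hne) hd)).1, ?_⟩
      obtain ⟨x', hx', y', hy', hxy⟩ := hT.2.2.1 (by omega) ζ E e (hammingDist x y)
        (by nlinarith) (by omega)
      rw [← hKe] at hx' hy'
      obtain ⟨σ, π, e1, e2⟩ := exists_wreath hxy.symm
      obtain ⟨g, hg, hgx, hgy⟩ : ∃ g ∈ M, g x' = f x ∧ g y' = f y :=
        ⟨_, M.mul_mem hf (hG σ π), congrArg f e1, congrArg f e2⟩
      obtain ⟨ζ', E', e', h5, -, h7, h8⟩ := key (K.image g) (by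
        intro u hu v hv huv
        obtain ⟨u', hu', rfl⟩ := mem_image.1 hu
        obtain ⟨v', hv', rfl⟩ := mem_image.1 hv
        exact (hend g hg u' v' (hK u' hu' v' hv' fun h' => huv (by rw [h']))).2)
        (card_image_of_injOn fun u hu v hv huv => by_contra fun hne' =>
          (hend g hg u v (hK u hu v hv hne')).1 huv)
      have h9 : 2 * e' + E'.card ≤ j + 1 := not_lt.1 fun h' => hJ1 (h8 _ (by omega) h')
      have h10 : f x ∈ K.image g := mem_image.2 ⟨x', hx', hgx⟩
      have h11 : f y ∈ K.image g := mem_image.2 ⟨y', hy', hgy⟩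
      rw [h5] at h10 h11
      exact (hT.2.1 ζ' E' e' _ h10 _ h11).trans h9
    by_cases hty : ∃ e1, Ty ι α (j + 1) K.card e1 ∧ 1 ≤ e1
    · obtain ⟨e1, h3, h4⟩ := hty
      refine rk_code h3 h4 h2 (fun y hy z hz hne => not_le.1 fun h' =>
        hC0 y hy z hz hne (hlow _ (hge y z hne) h')) (by rw [mul_comm]; exact hKC') (Or.inr ?_)
      suffices h5 : ∀ a, (univ.filter fun x => f x = f a).card * K.card =
          Fintype.card α ^ Fintype.card ι by
        have h6 := h5 a0
        rw [← hKC', mul_comm] at h6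
        rw [← Nat.eq_of_mul_eq_mul_left (card_pos.2 ⟨_, mem_image_of_mem h (mem_univ a0)⟩) h6]
        exact rank_mul hU a0
      refine (b2R hk hMax h3 h4 hf').resolve_right fun h5 => hJ1 ?_
      have h6 : ∀ c ∈ M, ∀ x y, hammingDist x y = j + 1 + 1 →
          hammingDist (c x) (c y) = j + 1 + 1 := by
        intro c hc
        induction hc using Submonoid.closure_induction with
        | mem c hc =>
          rcases hc with ⟨σ, π, rfl⟩ | rfl
          · exact fun x y hd => (dist_wreath σ π x y).trans hd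
          · exact h5
        | one => exact fun x y hd => hd
        | mul c c' _ _ ih ih' => exact fun x y hd => ih _ _ (ih' x y hd)
      intro x y hd c hc he
      have := h6 c hc x y hd
      rw [he, hammingDist_self] at this
      omega
    · obtain ⟨n, hn⟩ := good_fib (by nlinarith) (exists_good (by omega)
        (K6.Glue.ekr hMax (fun e1 h3 => by
          by_contra h4
          exact hty ⟨e1, h3, by omega⟩) ⟨K, hKd, rfl⟩) hf') a0
      refine Or.inl ⟨n, ?_⟩
      rw [← rank_mul hU a0, mul_comm] at hn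
      have h0 : 0 < (univ.filter fun y => f y = f a0).card :=
        card_pos.2 ⟨a0, mem_filter.2 ⟨mem_univ _, rfl⟩⟩
      exact (Nat.eq_of_mul_eq_mul_right h0 hn).symm
  · have h2 : 2 ≤ K.card := by
      obtain ⟨x, hx⟩ : ∃ x, h x ≠ h a0 := by
        by_contra! h'
        exact hM h hh ⟨h a0, h'⟩
      exact one_lt_card.2 ⟨_, mem_image_of_mem h (mem_univ x), _,
        mem_image_of_mem h (mem_univ a0), hx⟩
    by_cases hx : ∃ D' : Finset (ι → α), Cl Sᶜ D' ∧
        Fintype.card α ^ Fintype.card ι ≤ K.card * D'.card ∧ Ex K D'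
    · obtain ⟨D', h3, h4, h5⟩ := hx
      exact hX K D' h5 S h0S hHom (Or.inl ⟨h1, hK, h3⟩)
    obtain ⟨ζ, E, e, hCe, hr, hJ1, hlow⟩ := conc hA hT hk h1 hK hC0 h2 hKC
      (fun h' => hx ⟨C0, hC0, hKC, h'⟩)
    obtain ⟨j, hj⟩ : ∃ j, 2 * e + E.card = j + 1 :=
      Nat.exists_eq_succ_of_ne_zero fun h0 => h1 (by rw [h0] at hJ1; exact hJ1)
    have hCd : Diam C0 (j + 1) := by rw [hCe, ← hj]; exact hT.2.1 ζ E e
    rw [hj] at hJ1 hlow
    have hKd : ∀ y ∈ K, ∀ z ∈ K, y ≠ z → j + 1 < hammingDist y z :=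
      fun y hy z hz hne => not_le.1 fun h' => hlow _ (hge y z hne) h' (hK y hy z hz hne)
    have hMax : MaxA ι α (j + 1) C0.card := maxA hH hC hA hT hk (by omega) hKd h2 hKC'
    have hhigh : ∀ x y : ι → α, j + 1 < hammingDist x y → hammingDist x y ∈ S := by
      intro x y hd
      refine (hS x y).2 fun c hc he => ?_
      have hg := M.mul_mem hh hc
      have hle : ∀ v, (univ.filter fun x => (h * c) x = v).card ≤ C0.card := fun v => by
        have := hC.2.1 _ _ (sep_of hK (hfib _ hg v))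
        rw [← hKC'] at this
        exact Nat.le_of_mul_le_mul_left this (by omega)
      have hsum : ∑ v ∈ K, (univ.filter fun x => (h * c) x = v).card = ∑ _v ∈ K, C0.card := by
        rw [sum_const, smul_eq_mul, hKC', ← Fintype.card_fun, ← card_univ]
        exact (card_eq_sum_card_fiberwise fun x _ => mem_image_of_mem h (mem_univ (c x))).symm
      have heq := (sum_eq_sum_iff_of_le fun v _ => hle v).1 hsum ((h * c) x)
        (mem_image_of_mem h (mem_univ (c x)))
      obtain ⟨ζ', E', e', h5, -, -, h8⟩ := conc hA hT hk h1 hK (hfib _ hg ((h * c) x)) h2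
        (by rw [heq]; exact hKC)
        (fun h' => hx ⟨_, hfib _ hg ((h * c) x), by rw [heq]; exact hKC, h'⟩)
      have h9 : 2 * e' + E'.card ≤ j + 1 := not_lt.1 fun h' => h8 _ (by omega) h' hJ1
      have h10 : x ∈ AK ζ' E' e' := h5 ▸ mem_filter.2 ⟨mem_univ _, rfl⟩
      have h11 : y ∈ AK ζ' E' e' := h5 ▸ mem_filter.2 ⟨mem_univ _, congrArg h he.symm⟩
      have := hT.2.1 ζ' E' e' _ h10 _ h11
      omega
    have hf' : ∀ x y, j + 1 < hammingDist x y → j + 1 < hammingDist (f x) (f y) := by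
      intro x y hd
      obtain ⟨h3, h4⟩ := hend f hf x y (hhigh x y hd)
      exact not_le.1 fun h' => hlow _ (hge _ _ h3) h' h4
    by_cases hty : ∃ e1, Ty ι α (j + 1) C0.card e1 ∧ 1 ≤ e1
    · obtain ⟨e1, h3, h4⟩ := hty
      rcases b1R hk hMax (hP _ _ K f inferInstance hMax hKd hKC' hf') h3 h4 with h5 | h5
      · exact rk_inj (Finite.injective_iff_surjective.2 h5)
      · refine rk_code h3 h4 h2 hKd hKC' (Or.inl ?_)
        have h6 := rank_mul hU a0
        rw [h5 a0, ← hKC'] at h6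
        refine Nat.eq_of_mul_eq_mul_right (Nat.pos_of_mul_pos_left (a := K.card) ?_) h6
        rw [hKC']
        positivity
    · obtain ⟨E', -, hE'⟩ := exists_subset_card_eq (s := (univ : Finset ι)) (n := j + 1 + 1)
        (by rw [card_univ]; nlinarith)
      obtain ⟨n, hn⟩ := large_fib (K6.Glue.ekr hMax (fun e1 h3 => by
        by_contra h4
        exact hty ⟨e1, h3, by omega⟩) ⟨C0, hCd, rfl⟩) hf' hE' (f a0) (a := a0)
        (mem_pre.2 fun _ _ => rfl)
      have h6 := rank_mul hU a0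
      rw [hn] at h6
      exact Or.inl (pow_of_mul (by omega) h6)

theorem rk_pc {S : Set ℕ} {K D : Finset (ι → α)} {f : (ι → α) → ι → α} [Nonempty α]
    (hT : TP S K D) (hf : Hom S f) (h : PC S f) {i : ℕ} (hK : K.card = Fintype.card α ^ i) :
    RkP f := by
  obtain ⟨r1, -, r3, -⟩ := rob S K D f inferInstance hT hf
  have hne : ∀ x y, hammingDist x y ∈ S → f x ≠ f y := fun x y h e => by
    have h3 := hf x y h
    rw [e, hammingDist_self] at h3
    exact hT.zero h3
  rcases h with h | h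
  · refine Or.inl ⟨i, ?_⟩
    rw [← hK]
    refine le_antisymm (r1 _ fun y hy z hz hyz => ?_) ?_
    · obtain ⟨a, -, rfl⟩ := mem_image.1 hy
      obtain ⟨b, -, rfl⟩ := mem_image.1 hz
      by_contra h'
      exact h a b ⟨hyz, h'⟩
    · rw [← (r3 K hT.cl).2]
      exact card_le_card (image_subset_image (subset_univ _))
  · refine rk_inj fun x y e => ?_
    by_contra hxy
    by_cases h' : hammingDist x y ∈ S
    · exact hne x y h' e
    · exact h x y hxy h' e

theorem rk_prime {f : (ι → α) → ι → α} [Nonempty α] (hp : (Fintype.card α).Prime) (hU : Unif f) :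
    RkP f := by
  obtain ⟨a⟩ : Nonempty (ι → α) := inferInstance
  obtain ⟨i, -, hi⟩ := (Nat.dvd_prime_pow hp).1 ⟨_, (rank_mul hU a).symm⟩
  exact Or.inl ⟨i, hi⟩

open Harm in
theorem rk_all {k m : ℕ} (hk : 3 ≤ k) (hA : StmtAX (Fin m) (Fin k) Exo)
    (f : Function.End (Fin m → Fin k))
    (hM : ∀ c ∈ Submonoid.closure ({g : Function.End (Fin m → Fin k) |
      ∃ (σ : Fin m → Perm (Fin k)) (π : Perm (Fin m)), g = fun x i => σ i (x (π i))} ∪ {f}),
      ¬∃ y, ∀ x, c x = y) : RkP f := by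
  have hU := unifX hk hA f hM
  refine glueR (by rwa [Fintype.card_fin]) Exo hA f (harm_all k m f) ?_ hM
  intro C D h S h0 hf hS
  have _ : Nonempty (Fin k) := ⟨⟨0, by omega⟩⟩
  rcases h with ⟨hk, -⟩ | ⟨hk, -⟩ | ⟨hk, -⟩ | ⟨hk, hm, a4, a6, b2, b3, b5⟩
  · exact rk_prime (hk ▸ Nat.prime_three) hU
  · exact rk_prime (hk ▸ Nat.prime_three) hU
  · exact rk_prime (hk ▸ Nat.prime_three) hU
  rw [Fintype.card_fin] at hk hm
  subst hk
  subst hm
  rcases hS with ⟨h1, hC, hD⟩ | ⟨h1, hC, hD⟩
  · have e4 := mem_of hC a4 (by norm_num)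
    have e6 := mem_of hC a6 (by norm_num)
    have e2 : 2 ∉ S := mem_of hD b2 (by norm_num)
    have e3 : 3 ∉ S := mem_of hD b3 (by norm_num)
    have e5 : 5 ∉ S := mem_of hD b5 (by norm_num)
    have hf' : Hom {4, 6} f := hom_of hf fun s hs => by
      rw [Fintype.card_fin] at hs
      interval_cases s <;> simp [*]
    obtain ⟨H, hc, hcl, -⟩ := hex
    have tp : TP {4, 6} H (cube 0 {0, 1, 2}) := by
      refine ⟨by simp, hcl, fun y hy z hz _ k => ?_, by rw [hc, card_cube]; decide⟩
      have k1 : hammingDist y z ≤ 3 := dist_le_of_mem_cube hy hz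
      rcases k with k | k
      · omega
      · rw [Set.mem_singleton_iff] at k
        omega
    exact rk_pc tp hf' (e7R move rob hex (hexOut out) f hf') (i := 3) (by rw [hc]; rfl)
  · have e4 : 4 ∉ S := mem_of hC a4 (by norm_num)
    have e6 : 6 ∉ S := mem_of hC a6 (by norm_num)
    have e2 := mem_of hD b2 (by norm_num)
    have e3 := mem_of hD b3 (by norm_num)
    have e5 := mem_of hD b5 (by norm_num)
    have hf' : Hom E8.SS f := hom_of hf fun s hs => by
      rw [Fintype.card_fin] at hs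
      interval_cases s <;> simp [*]
    obtain ⟨K, D', hK, hT⟩ := E8.tp hex
    exact rk_pc hT hf' (e8R out rob hex f hf') (i := 3) (by rw [hK]; rfl)

end Pool.Agent.MP_92191b_al.Rk
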