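import Pool.Agent.MP_92191b_al.Rk.Maps
import Pool.Agent.Mg.F92191bp.G9695df
import Pool.Agent.MP_92191b_al.K3.H9
import Pool.Agent.MP_92191b_al.K3.PL3
import Pool.Agent.Mg.F92191bp.G9dc04d

/-! The non-synchronizing ranks of the wreath product in the power action. -/

namespace Pool.Agent.MP_92191b_al.Rk

open Finset Function Equiv K6 X

theorem ncard_range {β : Type} [Fintype β] [DecidableEq β] (f : β → β) :
    (Set.range f).ncard = (univ.image f).card := by
  rw [← Set.ncard_coe_finset, coe_image, coe_univ, Set.image_univ]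

theorem stmtA {k m : ℕ} (hk : 3 ≤ k) : StmtAX (Fin m) (Fin k) Exo := by
  rcases Nat.eq_or_lt_of_le hk with rfl | hk4
  · exact K3.a3 (K3.hThm9 K3.sys (K3.loc K3.pl3) K3.prop
      (K3.fin K3.odd K3.kraft K3.two (K3.ball K3.two) K3.sz))
  · exact X4.thmA_ge4 hk4

variable {k m : ℕ} {G : Subgroup (Perm (Fin m → Fin k))}

theorem iso (hG : G = Subgroup.closure
      ({g : Perm (Fin m → Fin k) | ∃ h : Fin m → Perm (Fin k), ∀ x i, g x i = h i (x i)} ∪
        {g : Perm (Fin m → Fin k) | ∃ π : Perm (Fin m), ∀ x i, g x i = x (π i)})) :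
    ∀ g ∈ G, ∀ x y, hammingDist (g x) (g y) = hammingDist x y := by
  intro g hg
  rw [hG] at hg
  induction hg using Subgroup.closure_induction with
  | mem g hg =>
    intro x y
    rcases hg with ⟨h, hh⟩ | ⟨π, hh⟩
    · rw [funext (hh x), funext (hh y)]
      exact K6.Glue.dist_wreath h 1 x y
    · rw [funext (hh x), funext (hh y)]
      exact K6.Glue.dist_wreath (fun _ => 1) π x y
  | one => exact fun _ _ => rfl
  | mul a b _ _ ha hb => exact fun x y => (ha _ _).trans (hb x y)
  | inv a _ ha => exact fun x y => by rw [← ha]; simp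

theorem forward (hk : 3 ≤ k) (hG : G = Subgroup.closure
      ({g : Perm (Fin m → Fin k) | ∃ h : Fin m → Perm (Fin k), ∀ x i, g x i = h i (x i)} ∪
        {g : Perm (Fin m → Fin k) | ∃ π : Perm (Fin m), ∀ x i, g x i = x (π i)}))
    (f : (Fin m → Fin k) → (Fin m → Fin k))
    (hc : ¬∃ c ∈ Subsemigroup.closure
        ({t : Function.End (Fin m → Fin k) | ∃ g ∈ G, ∀ x, t x = g x} ∪
          {t : Function.End (Fin m → Fin k) | ∀ x, t x = f x}),
      ∃ y : Fin m → Fin k, ∀ x, c x = y) : RkP f := by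
  refine rk_all hk (stmtA hk) f fun c h h' => hc ⟨c, ?_, h'⟩
  clear h'
  induction h using Submonoid.closure_induction with
  | mem t ht =>
    refine Subsemigroup.subset_closure ?_
    rcases ht with ⟨σ, π, rfl⟩ | ht
    · left
      refine ⟨Equiv.piCongrRight σ * Equiv.arrowCongr π.symm (Equiv.refl _), ?_, fun x => ?_⟩
      · rw [hG]
        refine Subgroup.mul_mem _ (Subgroup.subset_closure (Or.inl ⟨σ, fun x i => rfl⟩))
          (Subgroup.subset_closure (Or.inr ⟨π, fun x i => rfl⟩))
      · rfl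
    · right
      intro x
      rw [Set.mem_singleton_iff.1 ht]
  | one => exact Subsemigroup.subset_closure (Or.inl ⟨1, G.one_mem, fun x => rfl⟩)
  | mul s t _ _ hs ht => exact Subsemigroup.mul_mem _ hs ht

theorem ranks (k m r : ℕ) (hk : 3 ≤ k) (G : Subgroup (Perm (Fin m → Fin k)))
    (hG : G = Subgroup.closure
      ({g : Perm (Fin m → Fin k) | ∃ h : Fin m → Perm (Fin k), ∀ x i, g x i = h i (x i)} ∪
        {g : Perm (Fin m → Fin k) | ∃ π : Perm (Fin m), ∀ x i, g x i = x (π i)})) :
    (∃ f : (Fin m → Fin k) → (Fin m → Fin k), ¬Injective f ∧ (Set.range f).ncard = r ∧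
      ¬∃ c ∈ Subsemigroup.closure
        ({t : Function.End (Fin m → Fin k) | ∃ g ∈ G, ∀ x, t x = g x} ∪
          {t : Function.End (Fin m → Fin k) | ∀ x, t x = f x}),
        ∃ y : Fin m → Fin k, ∀ x, c x = y) ↔
    (∃ i, 1 ≤ i ∧ i < m ∧ r = k ^ i) ∨
      (¬IsPrimePow k ∧ ∃ (e j : ℕ) (C : Finset (Fin m → Fin k)), 1 ≤ e ∧ 2 ≤ C.card ∧
        (∀ x ∈ C, ∀ y ∈ C, x ≠ y → 2 * e + j < hammingDist x y) ∧
        C.card * (k ^ j * ∑ i ∈ range (e + 1), (m - j).choose i * (k - 1) ^ i) = k ^ m ∧
        (r = C.card ∨ r * C.card = k ^ m)) := by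
  have _ : NeZero k := ⟨by omega⟩
  constructor
  · rintro ⟨f, hf, rfl, hc⟩
    rw [ncard_range]
    have hpow : (∃ i, (univ.image f).card = k ^ i) →
        ∃ i, 1 ≤ i ∧ i < m ∧ (univ.image f).card = k ^ i := by
      rintro ⟨i, hi⟩
      refine ⟨i, Nat.pos_of_ne_zero fun h0 => ?_, ?_, hi⟩
      · rw [h0, pow_zero] at hi
        obtain ⟨y, hy⟩ := card_eq_one.1 hi
        exact hc ⟨f, Subsemigroup.subset_closure (Or.inr fun _ => rfl), y, fun x =>
          mem_singleton.1 (hy ▸ mem_image_of_mem f (mem_univ x))⟩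
      · have h1 : (univ.image f).card < (univ : Finset (Fin m → Fin k)).card :=
          lt_of_le_of_ne card_image_le fun h => hf fun x y e =>
            card_image_iff.1 h (mem_univ x) (mem_univ y) e
        rw [hi, card_univ, Fintype.card_fun, Fintype.card_fin, Fintype.card_fin] at h1
        exact (Nat.pow_lt_pow_iff_right (by omega)).1 h1
    rcases forward hk hG f hc with h | ⟨e, E, ζ, C, he, h2, hd, hN, hr⟩
    · rw [Fintype.card_fin] at h
      exact Or.inl (hpow h)
    rw [card_AK'] at hN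
    simp only [Fintype.card_fin] at hN hr
    by_cases hp : IsPrimePow k
    · obtain ⟨a, ha⟩ := pow_of_mod hp (Dvd.intro_left _ hN) (vol_mod (by omega) _ _ _)
      rw [ha] at hN
      refine Or.inl (hpow (hr.elim (fun h => h ▸ pow_of_mul (by omega) hN) fun h => ⟨a, ?_⟩))
      rw [← hN, mul_comm] at h
      exact Nat.eq_of_mul_eq_mul_left (by omega) h
    · exact Or.inr ⟨hp, e, E.card, C, he, h2, hd, hN, hr⟩
  · rintro (⟨i, h1, h2, rfl⟩ | ⟨-, e, j, C, he, h2, hd, hN, hr⟩)
    · obtain ⟨R, -, hR⟩ := exists_subset_card_eq (s := (univ : Finset (Fin m))) (n := i)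
        (by rw [card_univ, Fintype.card_fin]; omega)
      obtain ⟨z, hz⟩ : R.Nonempty := card_pos.1 (by omega)
      obtain ⟨f, hf, hH⟩ := sub_map (α := Fin k) hz
      rw [Fintype.card_fin, hR] at hf
      have _ : Nontrivial (Fin k) := Fin.nontrivial_iff_two_le.2 (by omega)
      obtain ⟨a, ha⟩ := exists_ne ((0 : Fin m → Fin k) z)
      refine ⟨f, fun h => ?_, by rw [ncard_range, hf], nonsync (iso hG) (S := {1})
        (by simp) hH (E7.dist_upd 0 z ha)⟩
      rw [card_image_of_injective _ h, card_univ, Fintype.card_fun, Fintype.card_fin,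
        Fintype.card_fin] at hf
      have := Nat.pow_right_injective (show 2 ≤ k by omega) hf
      omega
    · obtain ⟨c, hc, c', hc', hcc⟩ := one_lt_card.1 h2
      have h3 := hd c hc c' hc' hcc
      have h4 : hammingDist c c' ≤ m := by
        simpa using hammingDist_le_card_fintype (x := c) (y := c')
      obtain ⟨E, -, rfl⟩ := exists_subset_card_eq (s := (univ : Finset (Fin m))) (n := j)
        (by rw [card_univ, Fintype.card_fin]; omega)
      have hN' : C.card * (AK (0 : Fin m → Fin k) E e).card =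
          Fintype.card (Fin k) ^ Fintype.card (Fin m) := by
        rw [card_AK']
        simpa only [Fintype.card_fin] using hN
      obtain ⟨x, hx, y, hy, hxy⟩ := (K6.ty K6.sph).2.2.1 (by rwa [Fintype.card_fin])
        (0 : Fin m → Fin k) E e 1 (by rw [Fintype.card_fin]; omega) (by omega)
      obtain ⟨⟨p, p1, p2, p3⟩, q, q1, q2, q3⟩ := code_maps hd (B1.diam 0 E e) hN' h2
        (one_lt_card.2 ⟨x, hx, y, hy, hammingDist_pos.1 (by omega)⟩)
      rcases hr with rfl | hr
      · exact ⟨p, p1, by rw [ncard_range, p2], nonsync (iso hG) (by simp) p3 h3⟩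
      · refine ⟨q, q1, ?_, nonsync (iso hG) (by simp) q3 (x := x) (y := y)
          ⟨by omega, by omega⟩⟩
        rw [ncard_range, q2]
        simp only [Fintype.card_fin] at hN'
        rw [← hN', mul_comm] at hr
        exact (Nat.eq_of_mul_eq_mul_left (by omega) hr).symm

end Pool.Agent.MP_92191b_al.Rk
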