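import Pool.Agent.MP_92191b_al.Rk.Glue

/-! Maps of the listed ranks that are not synchronized, and the case of a prime power. -/

set_option linter.unusedSectionVars false

namespace Pool.Agent.MP_92191b_al.Rk

open Finset Function Equiv K6 X

variable {ι α : Type} [Fintype ι] [DecidableEq ι] [Fintype α] [DecidableEq α]

theorem pow_of_mod {k a m : ℕ} (hk : IsPrimePow k) (ha : a ∣ k ^ m) (h : a ≡ 1 [MOD k - 1]) :
    ∃ i, a = k ^ i := by
  obtain ⟨p, s, hp, hs, rfl⟩ := (isPrimePow_nat_iff _).1 hk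
  rw [← pow_mul] at ha
  obtain ⟨t, -, rfl⟩ := (Nat.dvd_prime_pow hp).1 ha
  have h1 : p ^ s ≡ 1 [MOD p ^ s - 1] :=
    ((Nat.modEq_iff_dvd' (Nat.one_le_pow _ _ hp.pos)).2 dvd_rfl).symm
  have h2 : p ^ t = (p ^ s) ^ (t / s) * p ^ (t % s) := by
    rw [← pow_mul, ← pow_add, Nat.div_add_mod]
  have h3 : p ^ (t % s) ≡ 1 [MOD p ^ s - 1] := by
    have h4 := (h1.pow (t / s)).mul_right (p ^ (t % s))
    rw [one_pow, one_mul, ← h2] at h4
    exact h4.symm.trans h
  have h5 : 1 ≤ p ^ (t % s) := Nat.one_le_pow _ _ hp.pos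
  have h6 : p ^ (t % s) < p ^ s := Nat.pow_lt_pow_right hp.one_lt (Nat.mod_lt _ hs)
  have h7 := Nat.eq_zero_of_dvd_of_lt ((Nat.modEq_iff_dvd' h5).1 h3.symm) (by omega)
  exact ⟨t / s, by rw [h2, show p ^ (t % s) = 1 by omega, mul_one]⟩

theorem vol_mod {k : ℕ} (hk : 1 ≤ k) (j t e : ℕ) :
    k ^ j * ∑ i ∈ range (e + 1), t.choose i * (k - 1) ^ i ≡ 1 [MOD k - 1] := by
  have h1 : k ≡ 1 [MOD k - 1] := ((Nat.modEq_iff_dvd' hk).2 dvd_rfl).symm
  have h2 : ∑ i ∈ range (e + 1), t.choose i * (k - 1) ^ i ≡ 1 [MOD k - 1] := by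
    rw [sum_range_succ', Nat.choose_zero_right, pow_zero, mul_one]
    have h3 : k - 1 ∣ ∑ i ∈ range e, t.choose (i + 1) * (k - 1) ^ (i + 1) :=
      dvd_sum fun i _ => Dvd.dvd.mul_left (dvd_pow_self _ (Nat.succ_ne_zero i)) _
    simpa using ((Nat.modEq_zero_iff_dvd.2 h3).add_right 1)
  simpa using (h1.pow j).mul h2

theorem card_AK' (ζ : ι → α) (E : Finset ι) (e : ℕ) : (AK ζ E e).card = Fintype.card α ^ E.card *
    ∑ i ∈ range (e + 1), (Fintype.card ι - E.card).choose i * (Fintype.card α - 1) ^ i := by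
  rw [Ty.card_AK sph, Nat.sub_sub_self (card_le_univ E), ← sum_mul, mul_comm]

theorem nonsync {G : Subgroup (Perm (ι → α))}
    (hG : ∀ g ∈ G, ∀ x y, hammingDist (g x) (g y) = hammingDist x y) {S : Set ℕ} (h0 : 0 ∉ S)
    {f : (ι → α) → ι → α} (hf : Hom S f) {x y : ι → α} (hx : hammingDist x y ∈ S) :
    ¬∃ c ∈ Subsemigroup.closure ({t : Function.End (ι → α) | ∃ g ∈ G, ∀ x, t x = g x} ∪
      {t : Function.End (ι → α) | ∀ x, t x = f x}), ∃ y, ∀ x, c x = y := by
  rintro ⟨c, hc, z, hz⟩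
  have h1 : Hom S c := by
    clear hz
    induction hc using Subsemigroup.closure_induction with
    | mem t ht =>
      intro u v huv
      rcases ht with ⟨g, hg, ht⟩ | ht
      · rw [ht, ht, hG g hg]
        exact huv
      · rw [ht, ht]
        exact hf u v huv
    | mul s t _ _ hs ht => exact fun u v huv => hs _ _ (ht u v huv)
  have h2 := h1 x y hx
  rw [hz, hz, hammingDist_self] at h2
  exact h0 h2

variable [AddCommGroup α]

theorem dist_tile {c b c' b' : ι → α} (h : c + b = c' + b') :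
    hammingDist c c' = hammingDist b b' := by
  unfold hammingDist
  congr 1
  refine filter_congr fun i _ => not_congr ?_
  have h1 : c i + b i = c' i + b' i := congrFun h i
  constructor
  · intro e
    rw [e] at h1
    exact add_left_cancel h1
  · intro e
    rw [e] at h1
    exact add_right_cancel h1

theorem dist_add_left (c b b' : ι → α) : hammingDist (c + b) (c + b') = hammingDist b b' := by
  simp [hammingDist]

theorem tile {C A : Finset (ι → α)} {J : ℕ}
    (hC : ∀ x ∈ C, ∀ y ∈ C, x ≠ y → J < hammingDist x y) (hA : Diam A J)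
    (hN : C.card * A.card = Fintype.card α ^ Fintype.card ι) :
    ∃ p q : (ι → α) → ι → α, (∀ x, p x ∈ C ∧ q x ∈ A ∧ p x + q x = x) ∧
      ∀ c ∈ C, ∀ b ∈ A, p (c + b) = c ∧ q (c + b) = b := by
  have hinj : ∀ c ∈ C, ∀ b ∈ A, ∀ c' ∈ C, ∀ b' ∈ A, c + b = c' + b' → c = c' ∧ b = b' := by
    intro c hc b hb c' hc' b' hb' h
    have h1 : c = c' := by
      by_contra hne
      exact absurd (dist_tile h ▸ hC c hc c' hc' hne) (not_lt.2 (hA b hb b' hb'))
    rw [h1] at h
    exact ⟨h1, add_left_cancel h⟩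
  have himg : (C ×ˢ A).image (fun z => z.1 + z.2) = univ := by
    refine eq_univ_of_card _ ?_
    rw [card_image_of_injOn, card_product, hN, Fintype.card_fun]
    intro z hz w hw h
    obtain ⟨h1, h2⟩ := mem_product.1 hz
    obtain ⟨h3, h4⟩ := mem_product.1 hw
    exact Prod.ext (hinj _ h1 _ h2 _ h3 _ h4 h).1 (hinj _ h1 _ h2 _ h3 _ h4 h).2
  have hex : ∀ x, ∃ z : (ι → α) × (ι → α), z.1 ∈ C ∧ z.2 ∈ A ∧ z.1 + z.2 = x := by
    intro x
    obtain ⟨z, hz, e⟩ := mem_image.1 (himg ▸ mem_univ x)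
    exact ⟨z, (mem_product.1 hz).1, (mem_product.1 hz).2, e⟩
  choose z hz using hex
  exact ⟨fun x => (z x).1, fun x => (z x).2, hz, fun c hc b hb =>
    hinj _ (hz _).1 _ (hz _).2.1 c hc b hb (hz _).2.2⟩

theorem code_maps {C A : Finset (ι → α)} {J : ℕ}
    (hC : ∀ x ∈ C, ∀ y ∈ C, x ≠ y → J < hammingDist x y) (hA : Diam A J)
    (hN : C.card * A.card = Fintype.card α ^ Fintype.card ι) (h2 : 2 ≤ C.card)
    (h2' : 2 ≤ A.card) :
    (∃ p : (ι → α) → ι → α, ¬Injective p ∧ univ.image p = C ∧ Hom {s | J < s} p) ∧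
      ∃ q : (ι → α) → ι → α, ¬Injective q ∧ univ.image q = A ∧ Hom {s | 1 ≤ s ∧ s ≤ J} q := by
  obtain ⟨p, q, h1, h3⟩ := tile hC hA hN
  obtain ⟨c, hc, c', hc', hcc⟩ := one_lt_card.1 h2
  obtain ⟨b, hb, b', hb', hbb⟩ := one_lt_card.1 h2'
  refine ⟨⟨p, fun h => hbb (add_left_cancel (h ((h3 c hc b hb).1.trans (h3 c hc b' hb').1.symm))),
    ?_, fun x y hxy => hC _ (h1 x).1 _ (h1 y).1 fun e => ?_⟩,
    ⟨q, fun h => hcc (add_right_cancel (h ((h3 c hc b hb).2.trans (h3 c' hc' b hb).2.symm))),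
    ?_, fun x y hxy => ⟨hammingDist_pos.2 fun e => ?_, hA _ (h1 x).2.1 _ (h1 y).2.1⟩⟩⟩
  · refine Subset.antisymm (image_subset_iff.2 fun x _ => (h1 x).1) fun u hu => ?_
    exact mem_image.2 ⟨u + b, mem_univ _, (h3 u hu b hb).1⟩
  · have h4 : J < hammingDist x y := hxy
    rw [← (h1 x).2.2, ← (h1 y).2.2, e, dist_add_left] at h4
    exact absurd h4 (not_lt.2 (hA _ (h1 x).2.1 _ (h1 y).2.1))
  · refine Subset.antisymm (image_subset_iff.2 fun x _ => (h1 x).2.1) fun u hu => ?_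
    exact mem_image.2 ⟨c + u, mem_univ _, (h3 c hc u hu).2⟩
  · obtain ⟨h4, h5⟩ := hxy
    rw [← (h1 x).2.2, ← (h1 y).2.2, e, add_comm (p x), add_comm (p y), dist_add_left] at h4 h5
    exact absurd h5 (not_le.2 (hC _ (h1 x).1 _ (h1 y).1 (hammingDist_pos.1 h4)))

theorem block_map (φ : ι → ι) (hφ : ∀ l, φ (φ l) = φ l) {R : Finset ι}
    (hR : ∀ l, l ∈ R ↔ φ l = l) :
    ∃ f : (ι → α) → ι → α, univ.image f = cube 0 R ∧ Hom {1} f := by
  refine ⟨fun x l => ∑ l' ∈ univ.filter fun l' => φ l' = l, x l', ?_, fun u x h => ?_⟩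
  · refine Subset.antisymm (image_subset_iff.2 fun x _ => mem_cube.2 fun l hl => ?_)
      fun y hy => mem_image.2 ⟨y, mem_univ _, funext fun l => ?_⟩
    · refine sum_eq_zero fun l' hl' => absurd ?_ hl
      rw [← (mem_filter.1 hl').2]
      exact (hR _).2 (hφ l')
    · have h1 : ∀ l', φ l' ≠ l' → y l' = 0 := fun l' hl' =>
        mem_cube.1 hy l' fun h => hl' ((hR _).1 h)
      by_cases hl : φ l = l
      · refine sum_eq_single_of_mem l (mem_filter.2 ⟨mem_univ _, hl⟩) fun l' hl' hne => ?_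
        exact h1 l' fun e => hne (e.symm.trans (mem_filter.1 hl').2)
      · rw [h1 l hl]
        refine sum_eq_zero fun l' hl' => h1 l' fun e => hl ?_
        rw [← (mem_filter.1 hl').2]
        exact hφ l'
  · obtain ⟨i, h1, h2⟩ := E7.one h
    refine card_eq_one.2 ⟨φ i, ?_⟩
    ext l
    simp only [mem_filter, mem_univ, true_and, mem_singleton]
    constructor
    · intro hl
      by_contra hne
      exact hl (sum_congr rfl fun l' hl' => h2 l' fun e => hne (e ▸ (mem_filter.1 hl').2.symm))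
    · rintro rfl e
      have hi : i ∈ univ.filter fun l' => φ l' = φ i := mem_filter.2 ⟨mem_univ _, rfl⟩
      rw [← add_sum_erase _ _ hi, ← add_sum_erase _ _ hi,
        sum_congr rfl fun l' hl' => h2 l' (ne_of_mem_erase hl')] at e
      exact h1 (add_right_cancel e)

theorem sub_map {R : Finset ι} {z : ι} (hz : z ∈ R) : ∃ f : (ι → α) → ι → α,
    (univ.image f).card = Fintype.card α ^ R.card ∧ Hom {1} f := by
  obtain ⟨f, hf, hH⟩ := block_map (α := α) (fun l : ι => if l ∈ R then l else z) (fun l => by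
    by_cases h : l ∈ R
    · simp only [if_pos h]
    · simp only [if_neg h, ite_self]) (R := R) (fun l => by
    by_cases h : l ∈ R
    · simp only [h, if_true]
    · simp only [h, if_false, false_iff]
      rintro rfl
      exact h hz)
  exact ⟨f, by rw [hf, card_cube], hH⟩

end Pool.Agent.MP_92191b_al.Rk
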